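import Pool.Agent.Helper87.MD.Goals
import Pool.Agent.Helper92.Field.Divisor

/-! Project MD (captain helper87), packet BLK: one dyadic block. -/

set_option autoImplicit false

open Finset
open scoped Classical

namespace Pool.Agent.Helper12.MD

open Pool.Agent.Helper87.MD Pool.Agent.Helper98.Lang

theorem ev1 (a b : ℝ) (hb : 0 < b) : ∃ N : ℕ, ∀ K : ℕ, N ≤ K →
    (K : ℝ) ^ (-b) ≤ Real.log K ^ a := by
  have h := (isLittleO_log_rpow_rpow_atTop (-a) hb).bound (show (0 : ℝ) < 1 by norm_num)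
  have h' := (tendsto_natCast_atTop_atTop (R := ℝ)).eventually h
  obtain ⟨N, hN⟩ := Filter.eventually_atTop.1 h'
  refine ⟨max N 3, fun K hK => ?_⟩
  have hK3 : (3 : ℝ) ≤ K := by exact_mod_cast (le_max_right N 3).trans hK
  have h1 := hN K ((le_max_left N 3).trans hK)
  have hlog : 0 < Real.log K := Real.log_pos (by linarith)
  have hKpos : (0 : ℝ) < K := by linarith
  rw [one_mul, Real.norm_of_nonneg (Real.rpow_nonneg hlog.le _),
    Real.norm_of_nonneg (Real.rpow_nonneg hKpos.le _)] at h1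
  have h2 : 0 < Real.log K ^ (-a) := Real.rpow_pos_of_pos hlog _
  have h3 := inv_anti₀ h2 h1
  rwa [Real.rpow_neg hlog.le, inv_inv, ← Real.rpow_neg hKpos.le] at h3

theorem ev2 (κ : ℝ) (hκ : 0 < κ) : ∃ N : ℕ, ∀ K : ℕ, N ≤ K → (2 : ℝ) ≤ (K : ℝ) ^ κ := by
  have h := (tendsto_rpow_atTop hκ).comp (tendsto_natCast_atTop_atTop (R := ℝ))
  obtain ⟨N, hN⟩ := Filter.eventually_atTop.1 (h.eventually_ge_atTop (2 : ℝ))
  exact ⟨N, fun K hK => hN K hK⟩

theorem mdBLK : BlkGoal := by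
  intro hA hB hS hR ξ hξ ε η κ A c α hε hη hκ hκA hc hα0 hα1
  obtain ⟨C1, N1, hC1, h1⟩ := hA ξ hξ ε (η / 3) κ A c α hε (by positivity) hκ hκA hc hα0 hα1
  obtain ⟨N2, h2⟩ := hB ξ hξ ε κ A c α hε hκ hκA hc hα0 hα1
  obtain ⟨C2, hC2, h3⟩ := hS (η / 3) (by positivity)
  have hm : 0 < min κ (1 - α) := lt_min hκ (by linarith)
  set k1 : ℝ := min κ (1 - α) / 40 with hk1
  have hk1pos : 0 < k1 := by positivity
  have hk80 : min κ (1 - α) / 80 = k1 / 2 := by rw [hk1]; ring
  obtain ⟨C3, hC3, h4⟩ := Pool.Agent.Helper92.Field.divisor_bound (ε := k1 / 4) (by positivity)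
  obtain ⟨N3, h5⟩ := ev1 (η - 1 - ε) (k1 / 4) (by positivity)
  obtain ⟨N4, h6⟩ := ev2 κ hκ
  refine ⟨C1 * C2 + C3, max (max N1 N2) (max (max N3 N4) 3), by positivity, ?_⟩
  intro M d s R hN hs hsα hR1 hR2
  have hN1 : N1 ≤ M * d := (le_trans (le_max_left _ _) (le_max_left _ _)).trans hN
  have hN2 : N2 ≤ M * d := (le_trans (le_max_right _ _) (le_max_left _ _)).trans hN
  have hN3 : N3 ≤ M * d :=
    ((le_max_left N3 N4).trans ((le_max_left _ _).trans (le_max_right _ _))).trans hN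
  have hN4 : N4 ≤ M * d :=
    ((le_max_right N3 N4).trans ((le_max_left _ _).trans (le_max_right _ _))).trans hN
  have hN5 : 3 ≤ M * d := ((le_max_right _ _).trans (le_max_right _ _)).trans hN
  have hMd : M * d ≠ 0 := by omega
  have hM : 1 ≤ M := Nat.one_le_iff_ne_zero.2 (fun h => hMd (by simp [h]))
  have hd : 1 ≤ d := Nat.one_le_iff_ne_zero.2 (fun h => hMd (by simp [h]))
  have hdK : d ≤ M * d := Nat.le_mul_of_pos_left d hM
  have hreg := hR ξ c ε s M d R hc hε hd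
    (by exact_mod_cast ((h6 (M * d) hN4).trans hR1))
  have hsig := h3 d (M * d) hd hdK hN5
  have hdiv := h4 d (by omega)
  have hlg := h5 (M * d) hN3
  set K : ℝ := ((M * d : ℕ) : ℝ) with hK
  have hK3 : (3 : ℝ) ≤ K := by rw [hK]; exact_mod_cast hN5
  have hKpos : 0 < K := by linarith
  have hdK' : (d : ℝ) ≤ K := by rw [hK]; exact_mod_cast hdK
  have hlog1 : 1 ≤ Real.log K := by
    rw [Real.le_log_iff_exp_le hKpos]
    have := Real.exp_one_lt_d9
    linarith
  have hlogpos : 0 < Real.log K := by linarith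
  have hL0 : 0 ≤ Real.log K ^ (η - 1 - ε) := Real.rpow_nonneg hlogpos.le _
  refine hreg.trans ?_
  rw [← Finset.sum_filter_add_sum_filter_not d.divisors (fun g : ℕ => (g : ℝ) ≤ K ^ k1)]
  -- small divisors
  have hfirst : ∑ g ∈ d.divisors.filter (fun g : ℕ => (g : ℝ) ≤ K ^ k1),
      (g : ℝ) * SS ξ c ε s M d g R ≤ C1 * C2 * K * Real.log K ^ (η - 1 - ε) := by
    have hterm : ∀ g ∈ d.divisors.filter (fun g : ℕ => (g : ℝ) ≤ K ^ k1),
        (g : ℝ) * SS ξ c ε s M d g R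
          ≤ C1 * K * Real.log K ^ (η / 3 - 1 - ε) * (1 / (g : ℝ)) := by
      intro g hg
      rw [Finset.mem_filter] at hg
      have hgd : g ∣ d := Nat.dvd_of_mem_divisors hg.1
      have hgpos : 0 < g := Nat.pos_of_mem_divisors hg.1
      have hg0 : (0 : ℝ) < g := by exact_mod_cast hgpos
      have hh := h1 M d s g R hN1 hs hsα hgd hg.2 hR1 hR2
      calc (g : ℝ) * SS ξ c ε s M d g R
          ≤ (g : ℝ) * (C1 * K * Real.log K ^ (η / 3 - 1 - ε) / (g : ℝ) ^ 2) :=
            mul_le_mul_of_nonneg_left hh hg0.le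
        _ = C1 * K * Real.log K ^ (η / 3 - 1 - ε) * (1 / (g : ℝ)) := by
            field_simp
    have hP : 0 ≤ C1 * K * Real.log K ^ (η / 3 - 1 - ε) :=
      mul_nonneg (mul_nonneg hC1.le hKpos.le) (Real.rpow_nonneg hlogpos.le _)
    calc ∑ g ∈ d.divisors.filter (fun g : ℕ => (g : ℝ) ≤ K ^ k1),
        (g : ℝ) * SS ξ c ε s M d g R
        ≤ ∑ g ∈ d.divisors.filter (fun g : ℕ => (g : ℝ) ≤ K ^ k1),
            C1 * K * Real.log K ^ (η / 3 - 1 - ε) * (1 / (g : ℝ)) := Finset.sum_le_sum hterm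
      _ = C1 * K * Real.log K ^ (η / 3 - 1 - ε) *
            ∑ g ∈ d.divisors.filter (fun g : ℕ => (g : ℝ) ≤ K ^ k1), 1 / (g : ℝ) := by
            rw [Finset.mul_sum]
      _ ≤ C1 * K * Real.log K ^ (η / 3 - 1 - ε) * ∑ g ∈ d.divisors, 1 / (g : ℝ) := by
            refine mul_le_mul_of_nonneg_left ?_ hP
            exact Finset.sum_le_sum_of_subset_of_nonneg (Finset.filter_subset _ _)
              (fun i _ _ => by positivity)
      _ ≤ C1 * K * Real.log K ^ (η / 3 - 1 - ε) * (C2 * Real.log K ^ (η / 3)) :=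
            mul_le_mul_of_nonneg_left hsig hP
      _ = C1 * C2 * K * Real.log K ^ (η / 3 - 1 - ε + η / 3) := by
            rw [Real.rpow_add hlogpos]; ring
      _ ≤ C1 * C2 * K * Real.log K ^ (η - 1 - ε) := by
            refine mul_le_mul_of_nonneg_left ?_ (by positivity)
            exact Real.rpow_le_rpow_of_exponent_le hlog1 (by linarith)
  -- large divisors
  have hsecond : ∑ g ∈ d.divisors.filter (fun g : ℕ => ¬ (g : ℝ) ≤ K ^ k1),
      (g : ℝ) * SS ξ c ε s M d g R ≤ C3 * K * Real.log K ^ (η - 1 - ε) := by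
    have hterm : ∀ g ∈ d.divisors.filter (fun g : ℕ => ¬ (g : ℝ) ≤ K ^ k1),
        (g : ℝ) * SS ξ c ε s M d g R ≤ K ^ (1 - k1 / 2) := by
      intro g hg
      rw [Finset.mem_filter] at hg
      have hgd : g ∣ d := Nat.dvd_of_mem_divisors hg.1
      have hh := h2 M d s g R hN2 hs hsα hgd (not_le.1 hg.2) hR1 hR2
      rw [hk80] at hh
      exact hh
    calc ∑ g ∈ d.divisors.filter (fun g : ℕ => ¬ (g : ℝ) ≤ K ^ k1),
        (g : ℝ) * SS ξ c ε s M d g R
        ≤ ∑ g ∈ d.divisors.filter (fun g : ℕ => ¬ (g : ℝ) ≤ K ^ k1), K ^ (1 - k1 / 2) :=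
          Finset.sum_le_sum hterm
      _ = ((d.divisors.filter (fun g : ℕ => ¬ (g : ℝ) ≤ K ^ k1)).card : ℝ) *
            K ^ (1 - k1 / 2) := by rw [Finset.sum_const, nsmul_eq_mul]
      _ ≤ (d.divisors.card : ℝ) * K ^ (1 - k1 / 2) := by
            refine mul_le_mul_of_nonneg_right ?_ (Real.rpow_nonneg hKpos.le _)
            exact_mod_cast Finset.card_le_card (Finset.filter_subset _ _)
      _ ≤ (C3 * (d : ℝ) ^ (k1 / 4)) * K ^ (1 - k1 / 2) :=
            mul_le_mul_of_nonneg_right hdiv (Real.rpow_nonneg hKpos.le _)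
      _ ≤ (C3 * K ^ (k1 / 4)) * K ^ (1 - k1 / 2) := by
            refine mul_le_mul_of_nonneg_right ?_ (Real.rpow_nonneg hKpos.le _)
            refine mul_le_mul_of_nonneg_left ?_ hC3.le
            exact Real.rpow_le_rpow (by positivity) hdK' (by positivity)
      _ = C3 * K * K ^ (-(k1 / 4)) := by
            rw [mul_assoc, ← Real.rpow_add hKpos, mul_assoc]
            congr 1
            rw [show K * K ^ (-(k1 / 4)) = K ^ (1 : ℝ) * K ^ (-(k1 / 4)) by
              rw [Real.rpow_one], ← Real.rpow_add hKpos]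
            congr 1
            ring
      _ ≤ C3 * K * Real.log K ^ (η - 1 - ε) :=
            mul_le_mul_of_nonneg_left hlg (by positivity)
  calc _ ≤ C1 * C2 * K * Real.log K ^ (η - 1 - ε) + C3 * K * Real.log K ^ (η - 1 - ε) :=
        add_le_add hfirst hsecond
    _ = (C1 * C2 + C3) * K * Real.log K ^ (η - 1 - ε) := by ring

end Pool.Agent.Helper12.MD
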